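import Pool.Agent.W186.EH.Spec
set_option autoImplicit false

namespace Pool.Agent.W22.EH

open Complex Pool.Agent.W186.EH

lemma PS_eq (s : ℂ) (N : ℕ) : ∑ n ∈ Finset.Icc 1 N, (n : ℂ) ^ (-s) = PS s N := by
  unfold PS
  induction N with
  | zero => simp
  | succ N ih => rw [Finset.sum_Icc_succ_top (by omega), ih, Finset.sum_range_succ]

/-- the tail of the truncated formula -/
lemma tail {σ t : ℝ} (hσ : 1 / 2 ≤ σ) (hσ1 : σ < 1) (ht : 2 ≤ t) {N : ℕ} (hN : 1 ≤ N) :
    ‖riemannZeta ((σ : ℂ) + t * I) - PS ((σ : ℂ) + t * I) N‖ ≤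
      (N : ℝ) ^ (1 - σ) / t + 2 * (1 + t) * (N : ℝ) ^ (-σ) := by
  set s : ℂ := (σ : ℂ) + t * I with hs
  have hre : s.re = σ := by simp [hs]
  have him : s.im = t := by simp [hs]
  have hs0 : 0 < s.re := by rw [hre]; linarith
  have hs1 : s ≠ 1 := by
    intro h
    rw [h] at him
    simp at him
    linarith
  have hN0 : (0 : ℝ) < N := by exact_mod_cast hN
  rw [Pool.Agent.H307R2.zeta_eq hN hs0 hs1, PS_eq]
  have e1 : PS s N + (N : ℂ) ^ (1 - s) / (s - 1) +
      s * Pool.Agent.H307R2.TM N Pool.Agent.H307R2.Ez s - PS s N =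
      (N : ℂ) ^ (1 - s) / (s - 1) + s * Pool.Agent.H307R2.TM N Pool.Agent.H307R2.Ez s := by ring
  rw [e1]
  refine (norm_add_le _ _).trans ?_
  have n1 : ‖(N : ℂ) ^ (1 - s)‖ = (N : ℝ) ^ (1 - σ) := by
    have := Complex.norm_cpow_eq_rpow_re_of_pos hN0 (1 - s)
    rw [Complex.ofReal_natCast] at this
    rw [this]
    simp [hre]
  have n2 : t ≤ ‖s - 1‖ := by
    have := Complex.abs_im_le_norm (s - 1)
    have h3 : (s - 1).im = s.im := by simp
    rw [h3, him] at this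
    exact (le_abs_self _).trans this
  have n3 : ‖s‖ ≤ 1 + t := by
    refine (Complex.norm_le_abs_re_add_abs_im s).trans ?_
    rw [hre, him, abs_of_nonneg (by linarith), abs_of_nonneg (by linarith)]
    linarith
  have n4 := Pool.Agent.H307R2.TM_norm_le hN Pool.Agent.H307R2.Ez_norm_le hs0
  apply add_le_add
  · rw [norm_div, n1]
    apply div_le_div_of_nonneg_left (by positivity) (by linarith) n2
  · rw [norm_mul]
    have n5 : ‖Pool.Agent.H307R2.TM N Pool.Agent.H307R2.Ez s‖ ≤ 2 * (N : ℝ) ^ (-σ) := by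
      refine n4.trans ?_
      rw [hre, one_mul, div_le_iff₀ (by linarith)]
      have : 0 < (N : ℝ) ^ (-σ) := Real.rpow_pos_of_pos hN0 _
      nlinarith
    calc ‖s‖ * ‖Pool.Agent.H307R2.TM N Pool.Agent.H307R2.Ez s‖
        ≤ (1 + t) * (2 * (N : ℝ) ^ (-σ)) :=
          mul_le_mul n3 n5 (norm_nonneg _) (by linarith)
      _ = 2 * (1 + t) * (N : ℝ) ^ (-σ) := by ring

/-- the tail is bounded for `N` between `t²/4` and `t²` -/
lemma tail_le {σ t : ℝ} (hσ : 1 / 2 ≤ σ) (hσ1 : σ < 1) (ht : 2 ≤ t) {N : ℕ}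
    (h1 : t ^ 2 / 4 ≤ (N : ℝ)) (h2 : (N : ℝ) ≤ t ^ 2) :
    ‖riemannZeta ((σ : ℂ) + t * I) - PS ((σ : ℂ) + t * I) N‖ ≤ 17 := by
  have ht0 : 0 < t := by linarith
  have hN0 : (0 : ℝ) < N := lt_of_lt_of_le (by positivity) h1
  have hN : 1 ≤ N := by exact_mod_cast (Nat.cast_pos.mp hN0)
  refine (tail hσ hσ1 ht hN).trans ?_
  have e1 : (N : ℝ) ^ (1 - σ) / t ≤ 1 := by
    rw [div_le_one ht0]
    calc (N : ℝ) ^ (1 - σ) ≤ (t ^ 2) ^ (1 - σ) := Real.rpow_le_rpow hN0.le h2 (by linarith)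
      _ = t ^ (2 * (1 - σ)) := by
          rw [← Real.rpow_natCast, ← Real.rpow_mul ht0.le]; norm_num
      _ ≤ t ^ (1 : ℝ) := Real.rpow_le_rpow_of_exponent_le (by linarith) (by linarith)
      _ = t := Real.rpow_one t
  have e2 : 2 * (1 + t) * (N : ℝ) ^ (-σ) ≤ 16 := by
    have e3 : (N : ℝ) ^ (-σ) ≤ 4 * t ^ (-(1 : ℝ)) := by
      calc (N : ℝ) ^ (-σ) ≤ (t ^ 2 / 4) ^ (-σ) :=
            Real.rpow_le_rpow_of_nonpos (by positivity) h1 (by linarith)
        _ = t ^ (-(2 * σ)) * 4 ^ σ := by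
            rw [Real.div_rpow (by positivity) (by norm_num), Real.rpow_neg (by norm_num : (0:ℝ) ≤ 4),
              div_inv_eq_mul, ← Real.rpow_natCast, ← Real.rpow_mul ht0.le]
            norm_num
        _ ≤ t ^ (-(1 : ℝ)) * 4 ^ (1 : ℝ) := by
            gcongr
            · linarith
            · linarith
            · norm_num
        _ = _ := by rw [Real.rpow_one]; ring
    have e4 : 0 < (N : ℝ) ^ (-σ) := Real.rpow_pos_of_pos hN0 _
    calc 2 * (1 + t) * (N : ℝ) ^ (-σ) ≤ 2 * (t + t) * (4 * t ^ (-(1 : ℝ))) := by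
          gcongr
          linarith
      _ = 16 := by
          rw [Real.rpow_neg_one]
          field_simp
          norm_num
  linarith

/-- from blocks to zeta -/
lemma assemble {σ μ ε C0 : ℝ} (hσ : 1 / 2 ≤ σ) (hσ1 : σ < 1) (hμ : 0 ≤ μ) (hε : 0 < ε)
    (hC0 : 0 < C0) (hb : ∀ (t : ℝ) (J : ℕ), 2 ≤ t → 1 ≤ J → (J : ℝ) ≤ t ^ 2 →
      ‖PS ((σ : ℂ) + t * I) (J + J) - PS ((σ : ℂ) + t * I) J‖ ≤ C0 * t ^ (μ + ε / 4)) :
    ∃ T0 : ℝ, ∀ t : ℝ, T0 ≤ t → ‖riemannZeta ((σ : ℂ) + t * I)‖ ≤ t ^ (μ + ε) := by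
  set D : ℝ := 18 + 16 * C0 / ε with hD
  have hD0 : 0 < D := by positivity
  refine ⟨max 2 (D ^ (2 / ε)), fun t ht => ?_⟩
  have ht2 : 2 ≤ t := le_trans (le_max_left _ _) ht
  have ht0 : 0 < t := by linarith
  have ht1 : 1 ≤ t := by linarith
  have hDt : D ≤ t ^ (ε / 2) := by
    have h1 : D ^ (2 / ε) ≤ t := le_trans (le_max_right _ _) ht
    calc D = (D ^ (2 / ε)) ^ (ε / 2) := by
          rw [← Real.rpow_mul hD0.le]
          rw [show 2 / ε * (ε / 2) = 1 by field_simp, Real.rpow_one]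
      _ ≤ t ^ (ε / 2) := Real.rpow_le_rpow (Real.rpow_nonneg hD0.le _) h1 (by positivity)
  have hx : 1 ≤ t ^ 2 / 2 := by nlinarith
  obtain ⟨K, hK1, hK2⟩ := exists_nat_pow_near hx (show (1 : ℝ) < 2 by norm_num)
  set s : ℂ := (σ : ℂ) + t * I with hs
  have hKt : (2 : ℝ) ^ K ≤ t ^ 2 := by
    have : 0 < t ^ 2 := by positivity
    linarith
  have hKt' : t ^ 2 / 4 ≤ (2 : ℝ) ^ K := by
    have h4 : (2 : ℝ) ^ (K + 1) = 2 ^ K * 2 := pow_succ _ _
    linarith
  have htail : ‖riemannZeta s - PS s (2 ^ K)‖ ≤ 17 := by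
    apply tail_le hσ hσ1 ht2
    · push_cast
      exact hKt'
    · push_cast
      exact hKt
  have htel : PS s (2 ^ K) - PS s 1 = ∑ i ∈ Finset.range K, (PS s (2 ^ (i + 1)) - PS s (2 ^ i)) := by
    rw [Finset.sum_range_sub (fun i => PS s (2 ^ i))]
    simp
  have hsum : ‖PS s (2 ^ K) - PS s 1‖ ≤ K * (C0 * t ^ (μ + ε / 4)) := by
    rw [htel]
    refine (norm_sum_le _ _).trans ?_
    calc _ ≤ ∑ i ∈ Finset.range K, C0 * t ^ (μ + ε / 4) := by
          refine Finset.sum_le_sum fun i hi => ?_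
          rw [Finset.mem_range] at hi
          have e1 : 2 ^ (i + 1) = 2 ^ i + 2 ^ i := by rw [pow_succ]; ring
          rw [e1]
          refine hb t (2 ^ i) ht2 Nat.one_le_two_pow ?_
          push_cast
          refine le_trans ?_ hKt
          exact pow_le_pow_right₀ (by norm_num) hi.le
      _ = _ := by rw [Finset.sum_const, Finset.card_range, nsmul_eq_mul]
  have hP1 : ‖PS s 1‖ = 1 := by
    unfold PS
    simp
  have hlog : (K : ℝ) ≤ 4 * Real.log t := by
    have h1 := Real.log_le_log (by positivity) hKt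
    rw [Real.log_pow, Real.log_pow] at h1
    have h2 : (1 : ℝ) / 2 < Real.log 2 := by
      have := Real.log_two_gt_d9
      linarith
    have h3 : 0 ≤ (K : ℝ) := Nat.cast_nonneg K
    push_cast at h1
    nlinarith
  have hlog2 : Real.log t ≤ t ^ (ε / 4) / (ε / 4) := Real.log_le_rpow_div ht0.le (by positivity)
  have hKb : (K : ℝ) ≤ 16 / ε * t ^ (ε / 4) := by
    calc (K : ℝ) ≤ 4 * Real.log t := hlog
      _ ≤ 4 * (t ^ (ε / 4) / (ε / 4)) := by gcongr
      _ = _ := by field_simp; norm_num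
  have hz : ‖riemannZeta s‖ ≤ 18 + K * (C0 * t ^ (μ + ε / 4)) := by
    have e1 : riemannZeta s = (riemannZeta s - PS s (2 ^ K)) + (PS s (2 ^ K) - PS s 1) + PS s 1 := by
      ring
    rw [e1]
    refine (norm_add₃_le).trans ?_
    linarith
  have ht3 : 1 ≤ t ^ (μ + ε / 2) := Real.one_le_rpow ht1 (by positivity)
  calc ‖riemannZeta s‖ ≤ 18 + K * (C0 * t ^ (μ + ε / 4)) := hz
    _ ≤ 18 * t ^ (μ + ε / 2) + (16 / ε * t ^ (ε / 4)) * (C0 * t ^ (μ + ε / 4)) := by
        gcongr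
        linarith
    _ = D * t ^ (μ + ε / 2) := by
        have e1 : t ^ (μ + ε / 2) = t ^ (ε / 4) * t ^ (μ + ε / 4) := by
          rw [← Real.rpow_add ht0]
          congr 1
          ring
        rw [e1, hD]
        ring
    _ ≤ t ^ (ε / 2) * t ^ (μ + ε / 2) := by gcongr
    _ = t ^ (μ + ε) := by
        rw [← Real.rpow_add ht0]
        congr 1
        ring

/-- the block bound in terms of exponents -/
lemma VB_exp {k : ℕ} {σ t x : ℝ} (ht : 0 < t) {J : ℝ} (hJ : J = t ^ x) :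
    J ^ (-σ) * VB k J (t / J ^ k) =
      t ^ (-σ * x + x + (1 - k * x) * (1 / ((2 : ℝ) ^ k - 2))) +
      t ^ (-σ * x + x * (1 - 4 / (2 : ℝ) ^ k) + (1 - k * x) * (-(1 / ((2 : ℝ) ^ k - 2)))) := by
  have h1 : t / J ^ k = t ^ (1 - k * x) := by
    rw [hJ, ← Real.rpow_natCast, ← Real.rpow_mul ht.le, Real.rpow_sub ht, Real.rpow_one, mul_comm x]
  unfold VB
  rw [h1, ← Real.rpow_mul ht.le, ← Real.rpow_mul ht.le, mul_add]
  rw [hJ]
  rw [← Real.rpow_mul ht.le, ← Real.rpow_mul ht.le]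
  congr 1
  · rw [← mul_assoc, ← Real.rpow_add ht, ← Real.rpow_add ht]
    congr 1
    ring
  · rw [← mul_assoc, ← Real.rpow_add ht, ← Real.rpow_add ht]
    congr 1
    ring

lemma exists_x {t : ℝ} (ht : 2 ≤ t) {J : ℕ} (hJ : 1 ≤ J) (hJt : (J : ℝ) ≤ t ^ 2) :
    ∃ x : ℝ, 0 ≤ x ∧ x ≤ 2 ∧ (J : ℝ) = t ^ x := by
  have hJ1 : (1 : ℝ) ≤ J := by exact_mod_cast hJ
  have ht1 : 1 < t := by linarith
  refine ⟨Real.logb t J, Real.logb_nonneg ht1 hJ1, ?_, ?_⟩
  · rw [Real.logb_le_iff_le_rpow ht1 (by linarith)]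
    exact_mod_cast hJt
  · rw [Real.rpow_logb (by linarith) (by linarith) (by linarith)]

lemma rp {t a b : ℝ} (ht : 2 ≤ t) (h : a ≤ b) : t ^ a ≤ t ^ b :=
  Real.rpow_le_rpow_of_exponent_le (by linarith) h

theorem ex (hb : S_BK) (h1 : S_B1) : S_EX := by
  intro ε hε
  -- sigma = 1/2
  obtain ⟨A3, hA3, H3⟩ := hb 3 (by norm_num) (1 / 2) (ε / 4) (by norm_num) (by norm_num)
    (by positivity)
  obtain ⟨A2, hA2, H2⟩ := hb 2 (by norm_num) (1 / 2) (ε / 4) (by norm_num) (by norm_num)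
    (by positivity)
  obtain ⟨A1, hA1, H1⟩ := h1 (1 / 2) (by norm_num) (by norm_num)
  obtain ⟨B4, hB4, G4⟩ := hb 4 (by norm_num) (5 / 7) (ε / 4) (by norm_num) (by norm_num)
    (by positivity)
  obtain ⟨B3, hB3, G3⟩ := hb 3 (by norm_num) (5 / 7) (ε / 4) (by norm_num) (by norm_num)
    (by positivity)
  obtain ⟨B2, hB2, G2⟩ := hb 2 (by norm_num) (5 / 7) (ε / 4) (by norm_num) (by norm_num)
    (by positivity)
  -- a common way to use a block bound
  have use : ∀ (C t μ V : ℝ), 0 < C → 2 ≤ t → V ≤ 2 * t ^ μ → C * t ^ (ε / 4) * V ≤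
      2 * C * t ^ (μ + ε / 4) := by
    intro C t μ V hC ht hV
    have ht0 : 0 < t := by linarith
    calc C * t ^ (ε / 4) * V ≤ C * t ^ (ε / 4) * (2 * t ^ μ) := by gcongr
      _ = _ := by rw [Real.rpow_add ht0]; ring
  obtain ⟨T1, hT1⟩ := assemble (σ := 1 / 2) (μ := 1 / 6) (ε := ε) (C0 := 2 * (A3 + A2 + A1))
    le_rfl (by norm_num) (by norm_num) hε (by positivity) (by
      intro t J ht hJ hJt
      have ht0 : 0 < t := by linarith
      have htp : 0 < t ^ ((1 : ℝ) / 6 + ε / 4) := Real.rpow_pos_of_pos ht0 _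
      obtain ⟨x, hx0, hx2, hJx⟩ := exists_x ht hJ hJt
      rcases le_total x (2 / 3) with hx | hx
      · refine (H3 t J ht hJ hJt).trans ((use A3 t (1 / 6) _ hA3 ht ?_).trans ?_)
        · rw [VB_exp ht0 hJx, two_mul]
          refine add_le_add (rp ht ?_) (rp ht ?_)
          · push_cast; norm_num; linarith
          · push_cast; norm_num; linarith
        · gcongr
          linarith
      rcases le_total x 1 with hx1 | hx1
      · refine (H2 t J ht hJ hJt).trans ((use A2 t (1 / 6) _ hA2 ht ?_).trans ?_)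
        · rw [VB_exp ht0 hJx, two_mul]
          refine add_le_add (rp ht ?_) (rp ht ?_)
          · push_cast; norm_num; linarith
          · push_cast; norm_num; linarith
        · gcongr
          linarith
      · refine (H1 t J ht hJ ?_).trans ?_
        · rw [hJx]
          calc t = t ^ (1 : ℝ) := (Real.rpow_one t).symm
            _ ≤ t ^ x := rp ht hx1
        · have e1 : (J : ℝ) ^ ((1 : ℝ) - 1 / 2) / t ≤ t ^ ((1 : ℝ) / 6 + ε / 4) := by
            rw [hJx, ← Real.rpow_mul ht0.le]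
            rw [div_le_iff₀ ht0]
            calc t ^ (x * (1 - 1 / 2)) ≤ t ^ (1 / 6 + ε / 4 + 1) := rp ht (by linarith)
              _ = _ := by rw [Real.rpow_add ht0, Real.rpow_one]
          calc A1 * ((J : ℝ) ^ ((1 : ℝ) - 1 / 2) / t) ≤ A1 * t ^ ((1 : ℝ) / 6 + ε / 4) := by gcongr
            _ ≤ _ := by
                gcongr
                linarith)
  obtain ⟨T2, hT2⟩ := assemble (σ := 5 / 7) (μ := 1 / 14) (ε := ε) (C0 := 2 * (B4 + B3 + B2))
    (by norm_num) (by norm_num) (by norm_num) hε (by positivity) (by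
      intro t J ht hJ hJt
      have ht0 : 0 < t := by linarith
      have htp : 0 < t ^ ((1 : ℝ) / 14 + ε / 4) := Real.rpow_pos_of_pos ht0 _
      obtain ⟨x, hx0, hx2, hJx⟩ := exists_x ht hJ hJt
      rcases le_total x (4 / 9) with hx | hx
      · refine (G4 t J ht hJ hJt).trans ((use B4 t (1 / 14) _ hB4 ht ?_).trans ?_)
        · rw [VB_exp ht0 hJx, two_mul]
          refine add_le_add (rp ht ?_) (rp ht ?_)
          · push_cast; norm_num; linarith
          · push_cast; norm_num; linarith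
        · gcongr
          linarith
      rcases le_total x (5 / 6) with hx1 | hx1
      · refine (G3 t J ht hJ hJt).trans ((use B3 t (1 / 14) _ hB3 ht ?_).trans ?_)
        · rw [VB_exp ht0 hJx, two_mul]
          refine add_le_add (rp ht ?_) (rp ht ?_)
          · push_cast; norm_num; linarith
          · push_cast; norm_num; linarith
        · gcongr
          linarith
      · refine (G2 t J ht hJ hJt).trans ((use B2 t (1 / 14) _ hB2 ht ?_).trans ?_)
        · rw [VB_exp ht0 hJx, two_mul]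
          refine add_le_add (rp ht ?_) (rp ht ?_)
          · push_cast; norm_num; linarith
          · push_cast; norm_num; linarith
        · gcongr
          linarith)
  refine ⟨max T1 T2, fun t ht => ⟨?_, ?_⟩⟩
  · have := hT1 t (le_trans (le_max_left _ _) ht)
    have e : (((1 / 2 : ℝ) : ℂ) + t * I) = 1 / 2 + t * I := by push_cast; ring
    rwa [e] at this
  · have := hT2 t (le_trans (le_max_right _ _) ht)
    have e : (((5 / 7 : ℝ) : ℂ) + t * I) = 5 / 7 + t * I := by push_cast; ring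
    rwa [e] at this

end Pool.Agent.W22.EH
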